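import Mathlib
import Pool.Agent.H744R2.KZ.Props
import Pool.Agent.H747R2.Kad.Fourth
import Pool.Agent.H143R2.Kad.Trunc
import Pool.Agent.H880R2.Kad.GtSa
import Pool.Agent.H873R2.Kad.GT
import Pool.Agent.H71R2.Kad.Block

/-!
The bound for the amplifications of a bounded derivation of a C*-algebra with families `y`,
`∑ y* y = 1`, `∑ y y*` small.
-/

open scoped ComplexOrder InnerProductSpace ComplexConjugate Topology
open Finset Filter

noncomputable section

namespace H744R2.KZ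

open H759R2.Kad

universe u

namespace YMainaux

variable {B : Type u} [CStarAlgebra B] [PartialOrder B] [StarOrderedRing B]
variable {L : Type u} [NormedAddCommGroup L] [InnerProductSpace ℂ L] [CompleteSpace L]
variable {n : ℕ}

/-- matrix with one entry -/
def put (i j : Fin n) (y : B) : CStarMatrix (Fin n) (Fin n) B :=
  CStarMatrix.ofMatrix fun p q => if p = i ∧ q = j then y else 0

omit [PartialOrder B] [StarOrderedRing B] in
theorem put_apply (i j : Fin n) (y : B) (p q : Fin n) :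
    put i j y p q = if p = i ∧ q = j then y else 0 := rfl

omit [PartialOrder B] [StarOrderedRing B] in
theorem put_mul_apply (i j : Fin n) (y : B) (X : CStarMatrix (Fin n) (Fin n) B) (p q : Fin n) :
    (put i j y * X) p q = if p = i then y * X j q else 0 := by
  rw [CStarMatrix.mul_apply]
  simp only [put_apply]
  by_cases h : p = i
  · simp [h, ite_mul]
  · simp [h]

omit [PartialOrder B] [StarOrderedRing B] in
theorem put_star (i j : Fin n) (y : B) : star (put i j y) = put j i (star y) := by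
  ext p q
  rw [CStarMatrix.star_apply, put_apply, put_apply]
  by_cases h : q = i ∧ p = j
  · rw [if_pos h, if_pos ⟨h.2, h.1⟩]
  · rw [if_neg h, if_neg fun h' => h ⟨h'.2, h'.1⟩, star_zero]

omit [PartialOrder B] [StarOrderedRing B] in
theorem sum_apply' {κ : Type*} (S : Finset κ) (f : κ → CStarMatrix (Fin n) (Fin n) B)
    (p q : Fin n) : (∑ k ∈ S, f k) p q = ∑ k ∈ S, f k p q := by
  classical
  induction S using Finset.induction_on with
  | empty => rfl
  | insert a S ha ih => rw [Finset.sum_insert ha, Finset.sum_insert ha, CStarMatrix.add_apply, ih]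

/-- The row functional. -/
def rowMap (D : B →ₗ[ℂ] (L →L[ℂ] L)) (ξ : HH (Fin n) L) (a : Fin n) :
    CStarMatrix (Fin n) (Fin n) B →ₗ[ℂ] L where
  toFun Z := ∑ i, D (Z a i) (ξ i)
  map_add' Z W := by
    rw [← Finset.sum_add_distrib]
    refine Finset.sum_congr rfl fun j _ => ?_
    rw [CStarMatrix.add_apply, map_add]
    rfl
  map_smul' c Z := by
    rw [RingHom.id_apply, Finset.smul_sum]
    refine Finset.sum_congr rfl fun j _ => ?_
    rw [CStarMatrix.smul_apply, map_smul]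
    rfl

omit [PartialOrder B] [StarOrderedRing B] [CompleteSpace L] in
theorem rowMap_apply (D : B →ₗ[ℂ] (L →L[ℂ] L)) (ξ : HH (Fin n) L) (a : Fin n)
    (Z : CStarMatrix (Fin n) (Fin n) B) : rowMap D ξ a Z = ∑ i, D (Z a i) (ξ i) := rfl

theorem norm_row_le (Z : CStarMatrix (Fin n) (Fin n) B) (a : Fin n) :
    ‖∑ i, Z a i * star (Z a i)‖ ≤ ‖Z‖ ^ 2 := by
  have h : ∑ i, Z a i * star (Z a i) = (Z * star Z) a a := by
    rw [CStarMatrix.mul_apply]
    exact Finset.sum_congr rfl fun i _ => by rw [CStarMatrix.star_apply]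
  rw [h]
  refine (CStarMatrix.norm_entry_le_norm).trans ?_
  rw [sq, CStarRing.norm_self_mul_star]

omit [PartialOrder B] [StarOrderedRing B] in
/-- a column isometry -/
theorem sum_norm_sq_eq (π : B →⋆ₐ[ℂ] (L →L[ℂ] L)) {m : ℕ} (y : Fin m → B)
    (hy : ∑ j, star (y j) * y j = 1) (θ : L) : ∑ j, ‖π (y j) θ‖ ^ 2 = ‖θ‖ ^ 2 := by
  have h : ⟪θ, π (∑ j, star (y j) * y j) θ⟫_ℂ = ⟪θ, θ⟫_ℂ := by
    rw [hy, map_one]
    rfl
  have h2 : ⟪θ, π (∑ j, star (y j) * y j) θ⟫_ℂ = ∑ j, ((‖π (y j) θ‖ ^ 2 : ℝ) : ℂ) := by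
    rw [map_sum, _root_.sum_apply, inner_sum]
    refine Finset.sum_congr rfl fun j _ => ?_
    rw [map_mul, map_star, mul_apply_eq_comp, ContinuousLinearMap.star_eq_adjoint,
      ContinuousLinearMap.adjoint_inner_right, inner_self_eq_norm_sq_to_K]
    norm_cast
  rw [h2, inner_self_eq_norm_sq_to_K] at h
  have h3 : ((∑ j, ‖π (y j) θ‖ ^ 2 : ℝ) : ℂ) = ((‖θ‖ ^ 2 : ℝ) : ℂ) := by
    rw [Complex.ofReal_sum, h]
    norm_cast
  exact Complex.ofReal_injective h3

omit [PartialOrder B] [StarOrderedRing B] in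
/-- a row coisometry -/
theorem norm_row_sq_le (π : B →⋆ₐ[ℂ] (L →L[ℂ] L)) {m : ℕ} (y : Fin m → B)
    (hy : ∑ j, star (y j) * y j = 1) (η : Fin m → L) :
    ‖∑ j, π (star (y j)) (η j)‖ ^ 2 ≤ ∑ j, ‖η j‖ ^ 2 := by
  set θ : L := ∑ j, π (star (y j)) (η j) with hθ
  have h1 : ‖θ‖ ^ 2 ≤ ∑ j, ‖π (y j) θ‖ * ‖η j‖ := by
    have h2 : ((‖θ‖ ^ 2 : ℝ) : ℂ) = ∑ j, ⟪π (y j) θ, η j⟫_ℂ := by
      have h3 : ⟪θ, θ⟫_ℂ = ∑ j, ⟪π (y j) θ, η j⟫_ℂ := by
        conv_lhs => rw [hθ]
        rw [← hθ, inner_sum]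
        refine Finset.sum_congr rfl fun j _ => ?_
        rw [map_star, ContinuousLinearMap.star_eq_adjoint,
          ContinuousLinearMap.adjoint_inner_right]
      rw [← h3, inner_self_eq_norm_sq_to_K]
      norm_cast
    have h4 : ‖θ‖ ^ 2 = ‖((‖θ‖ ^ 2 : ℝ) : ℂ)‖ := by
      rw [Complex.norm_real, Real.norm_of_nonneg (by positivity)]
    rw [h4, h2]
    refine (norm_sum_le _ _).trans ?_
    exact Finset.sum_le_sum fun j _ => norm_inner_le_norm _ _
  have h5 := sum_norm_sq_eq π y hy θ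
  have h6 := Finset.sum_mul_sq_le_sq_mul_sq Finset.univ (fun j => ‖π (y j) θ‖) (fun j => ‖η j‖)
  rw [h5] at h6
  by_cases h0 : ‖θ‖ = 0
  · rw [h0]
    simp only [ne_eq, OfNat.ofNat_ne_zero, not_false_eq_true, zero_pow]
    positivity
  · have h7 : 0 < ‖θ‖ ^ 2 := by positivity
    have h8 : (‖θ‖ ^ 2) ^ 2 ≤ (∑ j, ‖π (y j) θ‖ * ‖η j‖) ^ 2 :=
      pow_le_pow_left₀ h7.le h1 2
    have h9 : ‖θ‖ ^ 2 * ‖θ‖ ^ 2 ≤ ‖θ‖ ^ 2 * ∑ j, ‖η j‖ ^ 2 := by
      rw [← sq]
      exact h8.trans h6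
    exact le_of_mul_le_mul_left h9 h7

omit [PartialOrder B] [StarOrderedRing B] in
/-- the column sum of the family `E_{0k} Y_j X` -/
theorem col_sum (a0 : Fin n) {m : ℕ} (y : Fin m → B) (hy : ∑ j, star (y j) * y j = 1)
    (X : CStarMatrix (Fin n) (Fin n) B) :
    ∑ q : Fin n × Fin m, star (put a0 q.1 (y q.2) * X) * (put a0 q.1 (y q.2) * X) =
      star X * X := by
  ext p r
  rw [sum_apply', CStarMatrix.mul_apply]
  have h1 : ∀ q : Fin n × Fin m,
      (star (put a0 q.1 (y q.2) * X) * (put a0 q.1 (y q.2) * X)) p r =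
        star (X q.1 p) * (star (y q.2) * y q.2) * X q.1 r := by
    intro q
    rw [CStarMatrix.mul_apply, Finset.sum_eq_single a0]
    · rw [CStarMatrix.star_apply, put_mul_apply, put_mul_apply, if_pos rfl, if_pos rfl, star_mul]
      simp only [mul_assoc]
    · intro b _ hb
      rw [put_mul_apply, if_neg hb, mul_zero]
    · intro h
      exact absurd (Finset.mem_univ _) h
  simp only [h1]
  rw [Fintype.sum_prod_type]
  refine Finset.sum_congr rfl fun i _ => ?_
  simp only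
  rw [← Finset.sum_mul, ← Finset.mul_sum, hy, mul_one, CStarMatrix.star_apply]

omit [PartialOrder B] [StarOrderedRing B] in
/-- the row sum of the family `E_{0k} Y_j X` -/
theorem row_sum (a0 : Fin n) {m : ℕ} (y : Fin m → B)
    (X : CStarMatrix (Fin n) (Fin n) B) :
    ∑ q : Fin n × Fin m, (put a0 q.1 (y q.2) * X) * star (put a0 q.1 (y q.2) * X) =
      put a0 a0 (∑ j, y j * (∑ k, (X * star X) k k) * star (y j)) := by
  ext p r
  rw [sum_apply', put_apply]
  have h1 : ∀ q : Fin n × Fin m,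
      ((put a0 q.1 (y q.2) * X) * star (put a0 q.1 (y q.2) * X)) p r =
        if p = a0 ∧ r = a0 then y q.2 * (X * star X) q.1 q.1 * star (y q.2) else 0 := by
    intro q
    rw [CStarMatrix.mul_apply]
    by_cases h : p = a0 ∧ r = a0
    · rw [if_pos h, CStarMatrix.mul_apply, Finset.mul_sum, Finset.sum_mul]
      refine Finset.sum_congr rfl fun i _ => ?_
      rw [CStarMatrix.star_apply, CStarMatrix.star_apply, put_mul_apply, put_mul_apply, if_pos h.1,
        if_pos h.2, star_mul]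
      simp only [mul_assoc]
    · rw [if_neg h]
      refine Finset.sum_eq_zero fun i _ => ?_
      rw [CStarMatrix.star_apply, put_mul_apply, put_mul_apply]
      by_cases hp : p = a0
      · have hr : r ≠ a0 := fun hr => h ⟨hp, hr⟩
        rw [if_neg hr, star_zero, mul_zero]
      · rw [if_neg hp, zero_mul]
  simp only [h1]
  by_cases h : p = a0 ∧ r = a0
  · simp only [if_pos h]
    rw [Fintype.sum_prod_type, Finset.sum_comm]
    refine Finset.sum_congr rfl fun j _ => ?_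
    simp only
    rw [Finset.mul_sum, Finset.sum_mul]
  · simp only [if_neg h, Finset.sum_const_zero]

/-- one entry, as a *-homomorphism -/
def putHom (a0 : Fin n) : B →⋆ₙₐ[ℂ] CStarMatrix (Fin n) (Fin n) B where
  toFun b := put a0 a0 b
  map_smul' c b := by
    ext p q
    rw [put_apply, MonoidHom.id_apply, CStarMatrix.smul_apply, put_apply]
    by_cases h : p = a0 ∧ q = a0 <;> simp [h]
  map_zero' := by
    ext p q
    rw [put_apply, ite_self]
    rfl
  map_add' b c := by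
    ext p q
    rw [put_apply, CStarMatrix.add_apply, put_apply, put_apply]
    by_cases h : p = a0 ∧ q = a0 <;> simp [h]
  map_mul' b c := by
    ext p q
    rw [put_mul_apply, put_apply, put_apply]
    by_cases h : p = a0 <;> by_cases h' : q = a0 <;> simp [h, h']
  map_star' b := (put_star a0 a0 b).symm

theorem norm_put_le (a0 : Fin n) (b : B) : ‖put a0 a0 b‖ ≤ ‖b‖ :=
  NonUnitalStarAlgHom.norm_apply_le (putHom a0) b

/-- the norm of the row sum -/
theorem norm_row_sum_le {m : ℕ} (y : Fin m → B) (X : CStarMatrix (Fin n) (Fin n) B) :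
    ‖∑ j, y j * (∑ k, (X * star X) k k) * star (y j)‖ ≤
      n * ‖X‖ ^ 2 * ‖∑ j, y j * star (y j)‖ := by
  set p : B := ∑ k, (X * star X) k k with hp
  have hp0 : 0 ≤ p := by
    rw [hp]
    refine Finset.sum_nonneg fun k _ => ?_
    rw [CStarMatrix.mul_apply]
    refine Finset.sum_nonneg fun i _ => ?_
    rw [CStarMatrix.star_apply]
    exact mul_star_self_nonneg _
  have hpn : ‖p‖ ≤ n * ‖X‖ ^ 2 := by
    rw [hp]
    refine (norm_sum_le _ _).trans ?_
    have : ∀ k ∈ (Finset.univ : Finset (Fin n)), ‖(X * star X) k k‖ ≤ ‖X‖ ^ 2 := by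
      intro k _
      refine (CStarMatrix.norm_entry_le_norm).trans ?_
      rw [sq, CStarRing.norm_self_mul_star]
    refine (Finset.sum_le_sum this).trans ?_
    rw [Finset.sum_const, Finset.card_univ, Fintype.card_fin, nsmul_eq_mul]
  have hp1 : p ≤ algebraMap ℝ B ‖p‖ := IsSelfAdjoint.le_algebraMap_norm_self (IsSelfAdjoint.of_nonneg hp0)
  have h1 : ∑ j, y j * p * star (y j) ≤ ‖p‖ • ∑ j, y j * star (y j) := by
    rw [Finset.smul_sum]
    refine Finset.sum_le_sum fun j _ => ?_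
    have h2 := star_right_conjugate_le_conjugate hp1 (y j)
    refine h2.trans (le_of_eq ?_)
    rw [Algebra.algebraMap_eq_smul_one, mul_smul_comm, mul_one, smul_mul_assoc]
  have h0 : 0 ≤ ∑ j, y j * p * star (y j) := 
    Finset.sum_nonneg fun j _ => star_right_conjugate_nonneg hp0 (y j)
  have h3 := CStarAlgebra.norm_le_norm_of_nonneg_of_le h0 h1
  refine h3.trans ?_
  rw [norm_smul, norm_norm]
  exact mul_le_mul_of_nonneg_right hpn (norm_nonneg _)

end YMainaux

open YMainaux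

theorem prove_Y_main (h1 : Y_row.{u}) : Y_main.{u} := by
  intro B _ _ _ L _ _ _ π D K hD hY n X
  have hK : 0 ≤ K := hD.nonneg
  have hrow := h1 B L π D K hD hY
  have hgt : St_gt.{u, u} := prove_gt (prove_gtsa prove_fourth prove_trunc)
  refine ContinuousLinearMap.opNorm_le_bound _ (by positivity) fun ξ => ?_
  rcases Nat.eq_zero_or_pos n with hn | hn
  · subst hn
    have : amp D (Fin 0) X ξ = 0 := Subsingleton.elim _ _
    rw [this, norm_zero]
    positivity
  have hn1 : (0 : ℝ) < n := by exact_mod_cast hn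
  set a0 : Fin n := ⟨0, hn⟩ with ha0
  obtain ⟨m, y, hy1, hy2⟩ := hY (1 / n) (by positivity)
  -- the row functional
  set Mc : ℝ := √24 * K * ‖ξ‖ with hMc
  have hM0 : 0 ≤ Mc := by positivity
  have hM2 : Mc ^ 2 = 24 * K ^ 2 * ‖ξ‖ ^ 2 := by
    rw [hMc, mul_pow, mul_pow, Real.sq_sqrt (by norm_num)]
  have hξ : ∑ i, ‖ξ i‖ ^ 2 = ‖ξ‖ ^ 2 := (PiLp.norm_sq_eq_of_L2 _ ξ).symm
  have hR : ∀ Z : CStarMatrix (Fin n) (Fin n) B, ‖rowMap D ξ a0 Z‖ ≤ Mc * ‖Z‖ := by
    intro Z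
    have h := hrow n (fun i => Z a0 i) (fun i => ξ i)
    rw [hξ] at h
    have h5 : ‖rowMap D ξ a0 Z‖ ^ 2 ≤ (Mc * ‖Z‖) ^ 2 := by
      rw [rowMap_apply, mul_pow, hM2]
      refine h.trans ?_
      have h6 := norm_row_le Z a0
      have h7 : 0 ≤ 24 * K ^ 2 := by positivity
      have h8 : 24 * K ^ 2 * ‖∑ i, Z a0 i * star (Z a0 i)‖ ≤ 24 * K ^ 2 * ‖Z‖ ^ 2 :=
        mul_le_mul_of_nonneg_left h6 h7
      calc 24 * K ^ 2 * ‖∑ i, Z a0 i * star (Z a0 i)‖ * ‖ξ‖ ^ 2
          ≤ 24 * K ^ 2 * ‖Z‖ ^ 2 * ‖ξ‖ ^ 2 := mul_le_mul_of_nonneg_right h8 (by positivity)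
        _ = _ := by ring
    exact (pow_le_pow_iff_left₀ (norm_nonneg _) (by positivity) two_ne_zero).mp h5
  -- little Grothendieck
  have hG := hgt (CStarMatrix (Fin n) (Fin n) B) L (rowMap D ξ a0) Mc hM0 hR (Fin n × Fin m)
    (fun q => put a0 q.1 (y q.2) * X)
  rw [col_sum a0 y hy1, row_sum, CStarRing.norm_star_mul_self] at hG
  have hrs : ‖put a0 a0 (∑ j, y j * (∑ k, (X * star X) k k) * star (y j))‖ ≤ ‖X‖ ^ 2 := by
    refine (norm_put_le _ _).trans ((norm_row_sum_le y X).trans ?_)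
    calc (n : ℝ) * ‖X‖ ^ 2 * ‖∑ j, y j * star (y j)‖ ≤ n * ‖X‖ ^ 2 * (1 / n) :=
          mul_le_mul_of_nonneg_left hy2 (by positivity)
      _ = ‖X‖ ^ 2 := by field_simp
  have hG2 : ∑ q : Fin n × Fin m, ‖rowMap D ξ a0 (put a0 q.1 (y q.2) * X)‖ ^ 2 ≤
      144 * (K * ‖X‖ * ‖ξ‖) ^ 2 := by
    refine hG.trans ?_
    rw [hM2]
    have h0 : 0 ≤ 3 * (24 * K ^ 2 * ‖ξ‖ ^ 2) := by positivity
    calc 3 * (24 * K ^ 2 * ‖ξ‖ ^ 2) * (‖X‖ * ‖X‖ +
          ‖put a0 a0 (∑ j, y j * (∑ k, (X * star X) k k) * star (y j))‖)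
        ≤ 3 * (24 * K ^ 2 * ‖ξ‖ ^ 2) * (‖X‖ * ‖X‖ + ‖X‖ ^ 2) :=
          mul_le_mul_of_nonneg_left (by linarith) h0
      _ = _ := by ring
  -- the vectors
  set V1 : HH (Fin n) L := WithLp.toLp 2 fun k =>
    ∑ j, π (star (y j)) (rowMap D ξ a0 (put a0 k (y j) * X)) with hV1
  set V2 : HH (Fin n) L := WithLp.toLp 2 fun k =>
    ∑ j, D (star (y j)) (π (y j) (amp π.toLinearMap (Fin n) X ξ k)) with hV2
  have hV : amp D (Fin n) X ξ = V1 + V2 := by
    ext k
    rw [PiLp.add_apply, amp_apply]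
    change _ = ∑ j, π (star (y j)) (rowMap D ξ a0 (put a0 k (y j) * X)) +
      ∑ j, D (star (y j)) (π (y j) (amp π.toLinearMap (Fin n) X ξ k))
    rw [← Finset.sum_add_distrib]
    have e1 : ∀ i, D (X k i) (ξ i) = ∑ j, (π (star (y j)) (D (y j * X k i) (ξ i)) +
        D (star (y j)) (π (y j) (π (X k i) (ξ i)))) := by
      intro i
      have e2 : X k i = ∑ j, star (y j) * (y j * X k i) := by
        simp only [← mul_assoc]
        rw [← Finset.sum_mul, hy1, one_mul]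
      conv_lhs => rw [e2]
      rw [map_sum, _root_.sum_apply]
      refine Finset.sum_congr rfl fun j _ => ?_
      rw [hD.leib (star (y j)) (y j * X k i), map_mul π (y j)]
      rfl
    simp only [e1]
    rw [Finset.sum_comm]
    refine Finset.sum_congr rfl fun j _ => ?_
    rw [Finset.sum_add_distrib]
    congr 1
    · rw [rowMap_apply, map_sum]
      refine Finset.sum_congr rfl fun i _ => ?_
      rw [put_mul_apply, if_pos rfl]
    · rw [amp_apply, map_sum, map_sum]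
      rfl
  have hN1 : ‖V1‖ ≤ 12 * (K * ‖X‖ * ‖ξ‖) := by
    have e1 : ‖V1‖ ^ 2 ≤ (12 * (K * ‖X‖ * ‖ξ‖)) ^ 2 := by
      rw [PiLp.norm_sq_eq_of_L2]
      have e2 : ∀ k ∈ (Finset.univ : Finset (Fin n)), ‖V1 k‖ ^ 2 ≤
          ∑ j, ‖rowMap D ξ a0 (put a0 k (y j) * X)‖ ^ 2 := by
        intro k _
        exact norm_row_sq_le π y hy1 fun j => rowMap D ξ a0 (put a0 k (y j) * X)
      refine (Finset.sum_le_sum e2).trans ?_
      rw [Fintype.sum_prod_type] at hG2
      refine hG2.trans (le_of_eq ?_)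
      ring
    exact (pow_le_pow_iff_left₀ (norm_nonneg _) (by positivity) two_ne_zero).mp e1
  have hπX : ‖amp π.toLinearMap (Fin n) X ξ‖ ≤ ‖X‖ * ‖ξ‖ := by
    have e1 : ‖ampHom π (Fin n) X‖ ≤ ‖X‖ := NonUnitalStarAlgHom.norm_apply_le _ _
    exact (ContinuousLinearMap.le_opNorm (ampHom π (Fin n) X) ξ).trans
      (mul_le_mul_of_nonneg_right e1 (norm_nonneg _))
  have hN2 : ‖V2‖ ≤ 5 * (K * ‖X‖ * ‖ξ‖) := by
    have e1 : ‖V2‖ ^ 2 ≤ (5 * (K * ‖X‖ * ‖ξ‖)) ^ 2 := by
      rw [PiLp.norm_sq_eq_of_L2]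
      have e2 : ∀ k ∈ (Finset.univ : Finset (Fin n)), ‖V2 k‖ ^ 2 ≤
          24 * K ^ 2 * ‖amp π.toLinearMap (Fin n) X ξ k‖ ^ 2 := by
        intro k _
        have h := hrow m (fun j => star (y j))
          (fun j => π (y j) (amp π.toLinearMap (Fin n) X ξ k))
        simp only [star_star] at h
        rw [hy1, sum_norm_sq_eq π y hy1] at h
        refine h.trans ?_
        have h9 := Block.norm_one_le B
        have h10 : 0 ≤ 24 * K ^ 2 := by positivity
        have h11 : 24 * K ^ 2 * ‖(1 : B)‖ ≤ 24 * K ^ 2 := by nlinarith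
        exact mul_le_mul_of_nonneg_right h11 (by positivity)
      refine (Finset.sum_le_sum e2).trans ?_
      rw [← Finset.mul_sum, ← PiLp.norm_sq_eq_of_L2]
      have h12 : ‖amp π.toLinearMap (Fin n) X ξ‖ ^ 2 ≤ (‖X‖ * ‖ξ‖) ^ 2 :=
        pow_le_pow_left₀ (norm_nonneg _) hπX 2
      have h13 : 24 * K ^ 2 * ‖amp π.toLinearMap (Fin n) X ξ‖ ^ 2 ≤
          24 * K ^ 2 * (‖X‖ * ‖ξ‖) ^ 2 := mul_le_mul_of_nonneg_left h12 (by positivity)
      refine h13.trans ?_
      have h14 : 0 ≤ K ^ 2 * (‖X‖ * ‖ξ‖) ^ 2 := by positivity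
      nlinarith
    exact (pow_le_pow_iff_left₀ (norm_nonneg _) (by positivity) two_ne_zero).mp e1
  rw [hV]
  have hfin := norm_add_le V1 V2
  have h15 : 0 ≤ K * ‖X‖ * ‖ξ‖ := by positivity
  nlinarith

end H744R2.KZ
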